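import Mathlib
import Pool.Agent.Lib.helper3.SRW
import Pool.Agent.Lib.helper3.Coins

/-! Simple random walk: range goals, potentials; a random-set independence lemma. -/

set_option linter.unusedSectionVars false

namespace Pool.Agent.H.MP_32e6ae_pr

open MeasureTheory ProbabilityTheory Filter Topology Finset Pool.Agent.Lib.helper3 SRW
open scoped ENNReal

variable {V : Type} [DecidableEq V] [Countable V] (G : SimpleGraph V) [G.LocallyFinite]
  (hG : ∀ v, 0 < G.degree v)

attribute [local instance] SRW.ms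

def vis (x : V) (t : ℕ) (ω : ℕ → V → V) : Finset V := (range (t + 1)).image (walk x ω)

lemma m_vis (x : V) (t : ℕ) {β : Type} [MeasurableSpace β] (g : Finset V → V → β) :
    Measurable fun ω => g (vis x t ω) (walk x ω t) := by
  have : (fun ω => g (vis x t ω) (walk x ω t)) = (fun h : Fin (t + 1) → V =>
      g (univ.image h) (h (Fin.last t))) ∘ fun ω (i : Fin (t + 1)) => walk x ω i := by
    ext ω
    simp only [Function.comp, Fin.val_last, vis]
    congr 1
    ext y
    simp [Fin.exists_iff]
  rw [this]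
  exact Measurable.of_discrete.comp (measurable_pi_lambda _ fun i => walk_meas x i)

include hG

lemma step (x : V) (t : ℕ) (g : Finset V → V → V → ℝ) (h0 : ∀ Z a y, 0 ≤ g Z a y) :
    ∫⁻ ω, ENNReal.ofReal (g (vis x t ω) (walk x ω t) (walk x ω (t + 1))) ∂P G =
    ∫⁻ ω, ENNReal.ofReal ((∑ y ∈ G.neighborFinset (walk x ω t), g (vis x t ω) (walk x ω t) y) /
      G.degree (walk x ω t)) ∂P G := by
  have := pr G hG
  have : Nonempty (V → V) := ⟨id⟩
  let _ : MeasurableSpace (Finset V × V) := ⊤
  have h := MC.indep_past (Measure.infinitePi fun v => uniformOn (G.neighborSet v)) t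
    (fun ω => (vis x t ω, walk x ω t)) (m_vis x t fun Z a => (Z, a)) (fun ω ω' h => by
      rw [walk_congr x t ω ω' h, vis, vis, image_congr fun i hi =>
        walk_congr x i ω ω' fun j hj => h j (by have := mem_range.1 hi; omega)])
    (fun z => ENNReal.ofReal (g z.1.1 z.1.2 (z.2 z.1.2)))
    (measurable_from_prod_countable_right fun z => (measurable_from_top
      (f := fun y => ENNReal.ofReal (g z.1 z.2 y))).comp (measurable_pi_apply z.2))
  refine h.trans (lintegral_congr fun ω => ?_)
  simp only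
  generalize walk x ω t = v
  have : (0 : ℝ) < G.degree v := by exact_mod_cast hG v
  rw [← lintegral_map (f := fun w => ENNReal.ofReal (g (vis x t ω) v w))
      measurable_from_top (measurable_pi_apply v), Measure.infinitePi_map_eval, uniformOn,
    ProbabilityTheory.cond, lintegral_smul_measure, ← G.coe_neighborFinset, lintegral_finset,
    Measure.count_apply_finset, ENNReal.ofReal_div_of_pos this,
    ENNReal.ofReal_sum_of_nonneg fun w _ => h0 .., ENNReal.div_eq_inv_mul]
  simp

lemma pot (x : V) {b : V → V → Prop} [DecidableRel b] {φ : V → ℝ} (h0 : ∀ v, 0 ≤ φ v)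
    (h : ∀ v, ∑ y ∈ G.neighborFinset v, ((if b v y then 1 else 0) + φ y) ≤ G.degree v * φ v) :
    ∀ᵐ ω ∂P G, ∀ᶠ t in atTop, ¬ b (walk x ω t) (walk x ω (t + 1)) := by
  have := pr G hG
  have m : ∀ t, MeasurableSet {ω | b (walk x ω t) (walk x ω (t + 1))} := fun t =>
    (walk_meas x t).prodMk (walk_meas x (t + 1))
      (MeasurableSet.of_discrete (s := {z : V × V | b z.1 z.2}))
  have key : ∀ n, ∑ t ∈ range n, P G {ω | b (walk x ω t) (walk x ω (t + 1))} +
      ∫⁻ ω, ENNReal.ofReal (φ (walk x ω n)) ∂P G ≤ ENNReal.ofReal (φ x) := fun n => by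
    induction n with
    | zero => simp [walk]
    | succ n ih =>
      rw [sum_range_succ, add_assoc]
      refine le_trans (add_le_add le_rfl ?_) ih
      rw [← lintegral_indicator_one (m n), ← lintegral_add_left (measurable_one.indicator (m n))]
      refine le_trans (le_of_eq (lintegral_congr fun ω => ?_)) ((step G hG x n
        (fun _ a y => (if b a y then 1 else 0) + φ y) fun _ a y => by
          have := h0 y; split_ifs <;> linarith).trans_le (lintegral_mono fun ω => ?_))
      · rw [ENNReal.ofReal_add (by split_ifs <;> norm_num) (h0 _)]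
        by_cases e : b (walk x ω n) (walk x ω (n + 1)) <;> simp [e]
      · refine ENNReal.ofReal_le_ofReal ?_
        rw [div_le_iff₀' (by exact_mod_cast hG _)]
        exact h _
  refine ae_eventually_notMem (s := fun t => {ω | b (walk x ω t) (walk x ω (t + 1))}) ?_
  exact ne_top_of_le_ne_top ENNReal.ofReal_ne_top
    (ENNReal.tsum_le_of_sum_range_le fun n => le_self_add.trans (key n))

omit hG

variable (Q : Finset V → Prop) [DecidablePred Q]

noncomputable def val : ℕ → Finset V → V → ℝ
  | 0, Z, _ => if Q Z then 1 else 0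
  | n + 1, Z, a => (∑ y ∈ G.neighborFinset a, val n (insert y Z) y) / G.degree a

lemma val_bd : ∀ n Z a, 0 ≤ val G Q n Z a ∧ val G Q n Z a ≤ 1
  | 0, Z, a => by unfold val; split_ifs <;> simp
  | n + 1, Z, a => ⟨div_nonneg (sum_nonneg fun _ _ => (val_bd n ..).1) (by positivity),
    div_le_one_of_le₀ ((sum_le_card_nsmul _ _ 1 fun _ _ => (val_bd n ..).2).trans (by simp))
      (by positivity)⟩

variable {Q} (hQ : ∀ Z Z', Z ⊆ Z' → Q Z → Q Z')
include hQ

lemma val_mono : ∀ n Z Z' a, Z ⊆ Z' → val G Q n Z a ≤ val G Q n Z' a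
  | 0, Z, Z', a, h => by
    unfold val; split_ifs with h1 h2
    exacts [le_rfl, absurd (hQ _ _ h h1) h2, zero_le_one, le_rfl]
  | n + 1, Z, Z', a, h => div_le_div_of_nonneg_right
    (sum_le_sum fun y _ => val_mono n _ _ y (insert_subset_insert _ h)) (by positivity)

include hG

lemma val_succ : ∀ n Z a, val G Q n Z a ≤ val G Q (n + 1) Z a
  | 0, Z, a => by
    rw [val]
    split_ifs with h
    · rw [val, one_le_div₀ (by exact_mod_cast hG _)]
      simp [val, hQ _ _ (subset_insert _ _) h]
    · exact (val_bd G Q 1 ..).1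
  | n + 1, Z, a => div_le_div_of_nonneg_right
    (sum_le_sum fun y _ => val_succ n _ y) (by positivity)

omit hQ in
lemma val_int (x : V) (t : ℕ) : ∀ n,
    ∫⁻ ω, ENNReal.ofReal (val G Q n (vis x t ω) (walk x ω t)) ∂P G =
      ENNReal.ofReal (val G Q (n + t) {x} x) := by
  have := pr G hG
  induction t with
  | zero => simp [vis, walk]
  | succ t ih =>
    intro n
    rw [← add_assoc, add_right_comm, ← ih]
    refine Eq.trans (lintegral_congr fun ω => ?_) (step G hG x t
      (fun Z _ y => val G Q n (insert y Z) y) fun _ _ _ => (val_bd ..).1)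
    rw [vis, range_add_one, image_insert]; rfl

lemma goal : ∃ W : Finset V → V → ℝ, (∀ Z a, 0 ≤ W Z a) ∧ (∀ Z a, Q (insert a Z) → W Z a = 1) ∧
    (∀ Z a, ∑ y ∈ G.neighborFinset a, W (insert a Z) y ≤ G.degree a * W Z a) ∧
    (∀ Z Z' a, Z ⊆ Z' → W Z a ≤ W Z' a) ∧
    ∀ x, ENNReal.ofReal (W ∅ x) ≤ P G {ω | ∃ t, Q (vis x t ω)} := by
  have := pr G hG
  have bd : ∀ Z a, BddAbove (Set.range fun n => val G Q n Z a) := fun Z a =>
    ⟨1, by rintro _ ⟨n, rfl⟩; exact (val_bd ..).2⟩
  have td : ∀ Z a, Tendsto (fun n => val G Q n Z a) atTop (𝓝 (⨆ n, val G Q n Z a)) := fun Z a =>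
    tendsto_atTop_ciSup (monotone_nat_of_le_succ fun n => val_succ G hG hQ n Z a) (bd Z a)
  refine ⟨fun Z a => ⨆ n, val G Q n (insert a Z) a,
    fun Z a => le_ciSup_of_le (bd ..) 0 (val_bd ..).1, fun Z a h => le_antisymm
      (ciSup_le fun n => (val_bd ..).2) (le_ciSup_of_le (bd ..) 0 (by simp [val, h])),
    fun Z a => le_of_tendsto' (tendsto_finsetSum _ fun y _ => td ..) fun n => ?_,
    fun Z Z' a h => ciSup_mono (bd ..) fun n => val_mono G hQ n _ _ a (insert_subset_insert _ h),
    fun x => le_of_tendsto' (ENNReal.tendsto_ofReal (td ..)) fun n => ?_⟩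
  · rw [← div_le_iff₀' (by exact_mod_cast hG _)]
    exact le_ciSup (bd (insert a Z) a) (n + 1)
  · have := val_int G hG (Q := Q) x n 0
    rw [zero_add] at this
    rw [insert_empty_eq, ← this]
    refine le_trans (lintegral_mono fun ω => ?_)
      (lintegral_indicator_one_le {ω | ∃ t, Q (vis x t ω)})
    rw [val]
    split_ifs with h
    · rw [Set.indicator_of_mem (show ω ∈ {ω | ∃ t, Q (vis x t ω)} from ⟨n, h⟩)]; simp
    · simp

omit hG hQ

open Classical in
lemma part {ι X : Type} [MeasurableSpace X] (ν : Measure X) [IsProbabilityMeasure ν] {S : Set ι}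
    {L : Finset ι} (hL : Disjoint S L) {a : ι → Set (ι → X)}
    (ha : ∀ l, MeasurableSet[cylinderEvents S] (a l)) {B : Set (ι → X)}
    (hB : MeasurableSet[cylinderEvents S] B) {E : ι → Set X} (hE : ∀ l, MeasurableSet (E l))
    {q : ℝ≥0∞} (hq : q ≤ 1) (h : ∀ l ∈ L, ν (E l)ᶜ ≤ q) (K : ℕ) :
    Measure.infinitePi (fun _ => ν) (B ∩ {ω | K ≤ (L.filter fun l => ω ∈ a l).card ∧
      ∀ l ∈ L, ω ∈ a l → ω l ∉ E l}) ≤ Measure.infinitePi (fun _ => ν) B * q ^ K := by
  have m : ∀ T : Finset ι, MeasurableSet[cylinderEvents S]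
      (B ∩ {ω | (L.filter fun l => ω ∈ a l) = T}) := fun T => by
    refine hB.inter ?_
    have : {ω | (L.filter fun l => ω ∈ a l) = T} =
        {_ω | T ⊆ L} ∩ ⋂ l ∈ L, if l ∈ T then a l else (a l)ᶜ := by
      ext ω
      simp only [Set.mem_ofPred_eq, Set.mem_inter_iff, Set.mem_iInter]
      refine ⟨fun e => ⟨e ▸ filter_subset _ _, fun l hl => by
        by_cases k : ω ∈ a l <;> simp [← e, hl, k]⟩, fun ⟨e, k⟩ => ?_⟩
      ext l
      by_cases hl : l ∈ L
      · have := k l hl
        by_cases k : l ∈ T <;> simp_all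
      · simp [hl, mt (@e l) hl]
    rw [this]
    exact (MeasurableSet.const _).inter (L.measurableSet_biInter fun l _ => by
      split_ifs; exacts [ha l, (ha l).compl])
  calc _ ≤ Measure.infinitePi (fun _ => ν) (⋃ T ∈ L.powerset.filter (K ≤ ·.card),
        (B ∩ {ω | (L.filter fun l => ω ∈ a l) = T}) ∩ (T : Set ι).pi fun l => (E l)ᶜ) :=
        measure_mono fun ω k => Set.mem_iUnion₂.2 ⟨L.filter fun l => ω ∈ a l,
          by simpa using k.2.1, ⟨k.1, rfl⟩,
          fun l hl => k.2.2 l (mem_filter.1 hl).1 (mem_filter.1 hl).2⟩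
    _ ≤ ∑ T ∈ L.powerset.filter (K ≤ ·.card), Measure.infinitePi (fun _ => ν)
        (B ∩ {ω | (L.filter fun l => ω ∈ a l) = T}) * q ^ K := by
      refine (measure_biUnion_finset_le _ _).trans (sum_le_sum fun T hT => ?_)
      simp only [mem_filter, mem_powerset] at hT
      rw [Coins.indep_cyl _ hL (m T), Measure.infinitePi_pi _ fun l _ => (hE l).compl]
      · refine mul_le_mul_right ((prod_le_pow_card _ _ q fun l hl => h l (hT.1 hl)).trans
          (pow_le_pow_right_of_le_one' hq hT.2)) _
      · rw [Set.pi_def]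
        exact T.measurableSet_biInter fun l hl =>
          measurable_cylinderEvent_apply (X := fun _ => X) (hT.1 hl) (hE l).compl
    _ ≤ _ := by
      rw [← sum_mul, ← measure_biUnion_finset (fun T _ T' _ e => Set.disjoint_left.2 fun ω a b =>
        e (a.2.symm.trans b.2)) fun T _ => cylinderEvents_le_pi _ (m T)]
      exact mul_le_mul_left (measure_mono (by simp)) _

end Pool.Agent.H.MP_32e6ae_pr
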