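import Mathlib
import Pool.Agent.H.MP_32e6ae_pr.A

/-! A fast tree with huge stars along a ray. -/

namespace Pool.Agent.H.MP_32e6ae_pr

open MeasureTheory ProbabilityTheory Filter Topology Finset Pool.Agent.Lib.helper3 SRW
open scoped ENNReal

attribute [local instance] SRW.ms

def c (m : ℕ) : ℕ := 2 ^ (m + 3)
def R (n : ℕ) : ℕ := 2 * ∏ k ∈ range (n + 1), (c k + 1)
def K (n : ℕ) : ℕ := 4 ^ n * R n
def M (n : ℕ) : ℕ := 2 * K n * (K n + c n + 1)

def lf : List ℕ → Prop
  | [] => False
  | i :: u => c u.length ≤ i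

open Classical in
noncomputable def a (v : List ℕ) : ℕ :=
  if lf v then 0 else c v.length + if v = List.replicate v.length 0 then M v.length else 0

def inT : List ℕ → Prop
  | [] => True
  | i :: v => i < a v ∧ inT v

abbrev V := {v // inT v}

def T : SimpleGraph V := .fromRel fun u v => ∃ i, v.1 = i :: u.1

def par (x : V) : V := ⟨x.1.tail, by
  obtain ⟨_ | ⟨i, v⟩, h⟩ := x
  exacts [trivial, h.2]⟩

noncomputable def kid (x : V) (i : ℕ) : V := if h : i < a x.1 then ⟨i :: x.1, h, x.2⟩ else x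

lemma kid_val {x : V} {i : ℕ} (h : i < a x.1) : (kid x i).1 = i :: x.1 := by simp [kid, h]

lemma adj_iff {x y : V} : T.Adj x y ↔ (x.1 ≠ [] ∧ y = par x) ∨ ∃ i < a x.1, y = kid x i := by
  rw [T, SimpleGraph.fromRel_adj]
  constructor
  · rintro ⟨-, ⟨i, e⟩ | ⟨i, e⟩⟩
    · have h : i < a x.1 := (e ▸ y.2 : inT (i :: x.1)).1
      exact .inr ⟨i, h, Subtype.ext (e.trans (kid_val h).symm)⟩
    · exact .inl ⟨by simp [e], Subtype.ext (by simp [par, e])⟩
  · rintro (⟨h, rfl⟩ | ⟨i, h, rfl⟩)
    · obtain ⟨_ | ⟨i, v⟩, k⟩ := x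
      · simp at h
      · exact ⟨by simp [par], .inr ⟨i, rfl⟩⟩
    · exact ⟨fun e => by simpa [kid_val h] using congrArg (·.1.length) e, .inl ⟨i, kid_val h⟩⟩

noncomputable instance : T.LocallyFinite := fun x => Set.Finite.fintype
  ((((range (a x.1)).image (kid x)).finite_toSet.insert (par x)).subset fun y hy => by
    rcases adj_iff.1 hy with h | ⟨i, h, e⟩
    · exact .inl h.2
    · exact .inr (by simpa using ⟨i, h, e.symm⟩))

lemma kid_inj (x : V) : Set.InjOn (kid x) (range (a x.1)) := fun i hi j hj e => by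
  have := congrArg Subtype.val e
  rw [kid_val (by simpa using hi), kid_val (by simpa using hj)] at this
  exact (List.cons.inj this).1

lemma sum_nb (x : V) (f : V → ℝ) : ∑ y ∈ T.neighborFinset x, f y =
    (if x.1 = [] then 0 else f (par x)) + ∑ i ∈ range (a x.1), f (kid x i) := by
  rw [← sum_image (kid_inj x)]
  split_ifs with h
  · rw [zero_add]; congr 1; ext y; simp [adj_iff, h, eq_comm]
  · rw [← sum_insert]
    · congr 1; ext y; simp [adj_iff, h, eq_comm]
    · simp only [mem_image, mem_range, not_exists, not_and]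
      intro i hi e
      have := congrArg (·.1.length) e
      simp [kid_val hi, par] at this
      omega

lemma deg_eq (x : V) : (T.degree x : ℝ) = (if x.1 = [] then 0 else 1) + a x.1 := by
  simpa using sum_nb x fun _ => 1

lemma c_pos (m : ℕ) : 0 < c m := by unfold c; positivity

lemma a_ge {v : List ℕ} (h : ¬ lf v) : c v.length ≤ a v := by simp [a, h]

lemma hT (x : V) : 0 < T.degree x := by
  have := deg_eq x
  split_ifs at this with h
  · have k := a_ge (v := x.1) (by simp [h, lf])
    have : T.degree x = a x.1 := by exact_mod_cast this.trans (zero_add _)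
    have := c_pos x.1.length
    omega
  · exact_mod_cast this ▸ (by positivity : (0 : ℝ) < 1 + a x.1)

def s (n : ℕ) : V := ⟨List.replicate n 0, by
  induction n with
  | zero => trivial
  | succ n ih =>
    refine ⟨(c_pos _).trans_le (a_ge ?_), ih⟩
    cases n
    · simp [lf]
    · simpa [List.replicate_succ, lf] using (c_pos _).ne'⟩

lemma s_nlf (n : ℕ) : ¬ lf (s n).1 := by
  cases n
  · simp [lf, s]
  · simpa [List.replicate_succ, lf, s] using (c_pos _).ne'

lemma s_len (n : ℕ) : (s n).1.length = n := by simp [s]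

lemma a_s (n : ℕ) : a (s n).1 = c n + M n := by
  rw [a, if_neg (s_nlf n), s_len, if_pos (show (s n).1 = List.replicate n 0 from rfl)]

lemma kid_s (n : ℕ) : kid (s n) 0 = s (n + 1) :=
  Subtype.ext (kid_val (by have := c_pos n; rw [a_s]; omega))

lemma reach (x : V) : T.Reachable (s 0) x := by
  obtain ⟨v, h⟩ := x
  induction v with
  | nil => rfl
  | cons i v ih => exact (ih h.2).trans (adj_iff.2 (.inr ⟨i, h.1, by simp [kid, h.1]⟩)).reachable

lemma tree : T.IsTree := by
  have : Nonempty V := ⟨s 0⟩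
  refine ⟨⟨fun x y => (reach x).symm.trans (reach y)⟩, ?_⟩
  have key : ∀ x y : V, ∀ i, y.1 = i :: x.1 → T.IsBridge s(x, y) := fun x y i e => by
    rw [SimpleGraph.isBridge_iff]
    rintro ⟨p⟩
    have : ∀ (u w : V) (_ : (T.deleteEdges {s(x, y)}).Walk u w), y.1 <:+ u.1 ↔ y.1 <:+ w.1 := by
      intro u w p
      induction p with
      | nil => rfl
      | @cons u v w h _ ih =>
        rw [← ih]
        simp only [SimpleGraph.deleteEdges_adj, T, SimpleGraph.fromRel_adj, Set.mem_singleton_iff,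
          Sym2.eq_iff, not_or, not_and] at h
        obtain ⟨⟨-, ⟨j, k⟩ | ⟨j, k⟩⟩, h1, h2⟩ := h
        · rw [k, List.suffix_cons_iff, or_iff_right fun h => h1
            (Subtype.ext (List.cons.inj (h.symm.trans e)).2) (Subtype.ext (k.trans h.symm))]
        · rw [k, List.suffix_cons_iff, or_iff_right fun h => h2 (Subtype.ext (k.trans h.symm))
            (Subtype.ext (List.cons.inj (h.symm.trans e)).2)]
    have := ((this _ _ p).2 List.suffix_rfl).length_le
    simp [e] at this
  refine SimpleGraph.isAcyclic_iff_forall_adj_isBridge.2 fun x y h => ?_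
  rcases ((SimpleGraph.fromRel_adj ..).1 h).2 with ⟨i, e⟩ | ⟨i, e⟩
  · exact key x y i e
  · rw [Sym2.eq_swap]; exact key y x i e

lemma len_le (x : V) : x.1.length ≤ T.dist (s 0) x := by
  obtain ⟨p, e⟩ := (reach x).exists_walk_length_eq_dist
  have : ∀ (u w : V) (p : T.Walk u w), w.1.length ≤ u.1.length + p.length := fun u w p => by
    induction p with
    | nil => simp
    | cons h _ ih =>
      rcases ((SimpleGraph.fromRel_adj ..).1 h).2 with ⟨i, e⟩ | ⟨i, e⟩ <;> simp [e] at ih ⊢ <;> omega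
  simpa [s_len, e] using this _ _ p

def bad (x y : V) : Prop := ¬ T.Adj x y ∨ ¬ lf x.1 ∧ (y = par x ∨ y = kid x 0)

open Classical in
noncomputable def φ (x : V) : ℝ := (if lf x.1 then 2 else 1) / 2 ^ x.1.length

lemma φ_pos (x : V) : 0 ≤ φ x := by unfold φ; split_ifs <;> positivity

lemma par_nlf (x : V) : ¬ lf (par x).1 := by
  obtain ⟨_ | ⟨i, v⟩, h⟩ := x
  · simp [par, lf]
  · exact fun e => by simpa [a, show lf v from e] using h.1

lemma φ_par {x : V} (h : x.1 ≠ []) : φ (par x) = 2 / 2 ^ x.1.length := by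
  rw [φ, if_neg (par_nlf x)]
  obtain ⟨_ | ⟨i, v⟩, k⟩ := x
  · simp at h
  · simp [par, pow_succ]; field_simp

open Classical in
lemma φ_sup (x : V) : ∑ y ∈ T.neighborFinset x, ((if bad x y then 1 else 0) + φ y) ≤
    T.degree x * φ x := by
  by_cases h : lf x.1
  · have e : x.1 ≠ [] := fun e => by simp [e, lf] at h
    rw [sum_nb, deg_eq, φ_par e]
    simp [a, h, e, φ, bad, adj_iff]
  have b : ∑ y ∈ T.neighborFinset x, (if bad x y then (1 : ℝ) else 0) ≤ 2 := by
    rw [sum_boole]
    exact_mod_cast (card_le_card (t := {par x, kid x 0}) fun y hy => by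
      simp only [mem_filter, SimpleGraph.mem_neighborFinset, bad] at hy
      simpa using (hy.2.resolve_left (not_not.2 hy.1)).2).trans card_le_two
  obtain ⟨d, hd⟩ := Nat.exists_eq_add_of_le (a_ge h)
  have p : (0 : ℝ) < 2 ^ x.1.length := by positivity
  have k1 : ∑ i ∈ range (c x.1.length), φ (kid x i) = c x.1.length * (1 / 2 / 2 ^ x.1.length) := by
    rw [sum_congr rfl (g := fun _ => 1 / 2 / 2 ^ x.1.length) fun i hi => by
      have := mem_range.1 hi
      rw [φ, kid_val (by omega), if_neg (by simpa [lf] using this), List.length_cons, pow_succ]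
      field_simp]
    simp
  have k2 : ∑ i ∈ range d, φ (kid x (c x.1.length + i)) = d * (1 / 2 ^ x.1.length) := by
    rw [sum_congr rfl (g := fun _ => 1 / 2 ^ x.1.length) fun i hi => by
      have := mem_range.1 hi
      rw [φ, kid_val (by omega), if_pos (by simp [lf]), List.length_cons, pow_succ]
      field_simp]
    simp
  rw [sum_add_distrib, sum_nb x φ, deg_eq, hd, sum_range_add, k1, k2,
    show φ x = 1 / 2 ^ x.1.length by rw [φ, if_neg h]]
  have e : (c x.1.length : ℝ) * (1 / 2 ^ x.1.length) = 8 := by simp [c, pow_add]; field_simp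
  have e1 : 1 / (2 : ℝ) ^ x.1.length ≤ 1 := div_le_one_of_le₀ (one_le_pow₀ one_le_two) p.le
  have e2 : 0 ≤ 1 / (2 : ℝ) ^ x.1.length := by positivity
  push_cast
  split_ifs with k
  · rw [div_right_comm]; nlinarith
  · rw [φ_par k, div_right_comm, div_eq_mul_one_div 2]; nlinarith

lemma speed : ∀ᵐ ω ∂P T, ∀ᶠ n : ℕ in atTop, (1 / 2 : ℝ) * n ≤ T.dist (s 0) (walk (s 0) ω n) := by
  classical
  have h2 : ∀ n, ∀ᵐ ω ∂P T, ∀ᶠ t in atTop, ¬ walk (s 0) ω t = s n := fun n => by
    refine pot T hT (s 0) (b := fun x _ => x = s n) (φ := fun x => T.degree (s n) * φ x)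
      (fun x => mul_nonneg (by positivity) (φ_pos x)) fun x => ?_
    have := mul_le_mul_of_nonneg_left (φ_sup x) (Nat.cast_nonneg (α := ℝ) (T.degree (s n)))
    rw [sum_add_distrib, mul_add] at this
    rw [sum_add_distrib, ← mul_sum, mul_left_comm]
    refine le_trans (add_le_add ?_ le_rfl) this
    split_ifs with e
    · subst e
      rw [sum_const, nsmul_eq_mul]
      refine mul_le_mul_of_nonneg_left (le_trans ?_ (single_le_sum (a := kid (s n) 0)
        (fun _ _ => by positivity) ?_)) (by positivity)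
      · simp [bad, s_nlf]
      · simpa [adj_iff] using .inr ⟨0, by have := c_pos n; rw [a_s]; omega, rfl⟩
    · rw [sum_const_zero]; positivity
  filter_upwards [pot T hT (s 0) φ_pos φ_sup, ae_all_iff.2 h2] with ω h1 h2
  generalize walk (s 0) ω = X at *
  obtain ⟨t0, h1⟩ := eventually_atTop.1 h1
  have mv : ∀ t ≥ t0, (lf (X t).1 → X (t + 1) = par (X t)) ∧ (¬ lf (X t).1 →
      ∃ i, i ≠ 0 ∧ i < a (X t).1 ∧ (X (t + 1)).1 = i :: (X t).1) := fun t ht => by
    have := h1 t ht
    simp only [bad, not_or, not_not, not_and] at this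
    rw [adj_iff] at this
    refine ⟨fun h => (this.1.resolve_right (by simp [a, h])).2, fun h => ?_⟩
    obtain ⟨i, hi, e⟩ := this.1.resolve_left fun k => (this.2 h).1 k.2
    exact ⟨i, fun k => (this.2 h).2 (k ▸ e), hi, e ▸ kid_val hi⟩
  have ex : ∃ t ≥ t0, ¬ lf (X t).1 ∧ (X t).1 ≠ List.replicate (X t).1.length 0 := by
    by_contra hc
    push Not at hc
    obtain ⟨t, ht, h⟩ : ∃ t ≥ t0, ¬ lf (X t).1 := by
      by_cases h : lf (X t0).1
      · exact ⟨t0 + 1, by omega, (mv t0 le_rfl).1 h ▸ par_nlf _⟩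
      · exact ⟨t0, le_rfl, h⟩
    have e : ∀ k, X (t + 2 * k) = X t := fun k => by
      induction k with
      | zero => rfl
      | succ k ih =>
        obtain ⟨i, h0, -, e⟩ := (mv (t + 2 * k) (by omega)).2 (ih ▸ h)
        have : lf (X (t + 2 * k + 1)).1 := by
          by_contra l
          have := hc _ (by omega) l
          rw [e] at this
          exact h0 (List.cons.inj this).1
        rw [← ih, show t + 2 * (k + 1) = t + 2 * k + 1 + 1 by ring, (mv _ (by omega)).1 this]
        exact Subtype.ext (by simp [par, e])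
    obtain ⟨k, hk⟩ := eventually_atTop.1 (h2 (X t).1.length)
    exact hk (t + 2 * k) (by omega) ((e k).trans (Subtype.ext (hc t ht h)))
  obtain ⟨t, ht, h⟩ := ex
  have e : ∀ k, (¬ lf (X (t + k)).1 ∧ (X (t + k)).1 ≠ List.replicate (X (t + k)).1.length 0) ∧
      k ≤ (X (t + k)).1.length := fun k => by
    induction k with
    | zero => exact ⟨h, zero_le⟩
    | succ k ih =>
      obtain ⟨i, h0, hi, e⟩ := (mv (t + k) (by omega)).2 ih.1.1
      rw [← add_assoc, e]
      rw [a, if_neg ih.1.1, if_neg ih.1.2] at hi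
      exact ⟨⟨by simpa [lf] using hi, fun k => h0 (List.cons.inj k).1⟩, by simpa using ih.2⟩
  refine (eventually_ge_atTop (2 * t)).mono fun n hn => ?_
  obtain ⟨k, rfl⟩ := Nat.exists_eq_add_of_le (show t ≤ n by omega)
  have : t + k ≤ 2 * T.dist (s 0) (X (t + k)) := by have := (e k).2.trans (len_le _); omega
  have : ((t + k : ℕ) : ℝ) ≤ 2 * T.dist (s 0) (X (t + k)) := by exact_mod_cast this
  linarith

noncomputable def L (n : ℕ) : Finset V := (range (M n)).image fun i => kid (s n) (c n + i)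

lemma mem_L {n : ℕ} {l : V} (h : l ∈ L n) : T.Adj (s n) l ∧ lf l.1 ∧ l.1 ≠ [] ∧ par l = s n ∧
    l.1.length = n + 1 := by
  obtain ⟨i, hi, rfl⟩ := mem_image.1 h
  have : c n + i < a (s n).1 := by rw [a_s]; simpa using hi
  exact ⟨adj_iff.2 (.inr ⟨_, this, rfl⟩), by simp [kid_val this, lf, s_len], by simp [kid_val this],
    Subtype.ext (by simp [par, kid_val this]), by simp [kid_val this, s_len]⟩

lemma card_L (n : ℕ) : (L n).card = M n := by
  rw [L, card_image_of_injOn, card_range]
  intro i hi j hj e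
  simpa using kid_inj (s n) (by simpa [a_s] using hi) (by simpa [a_s] using hj) e

section
variable {W : Finset V → V → ℝ} (W0 : ∀ Z a, 0 ≤ W Z a)
  (W2 : ∀ Z a, ∑ y ∈ T.neighborFinset a, W (insert a Z) y ≤ T.degree a * W Z a)
  (W3 : ∀ Z Z' a, Z ⊆ Z' → W Z a ≤ W Z' a)
include W2

lemma W_leaf {n : ℕ} {l : V} (h : l ∈ L n) (Z : Finset V) : W (insert l Z) (s n) ≤ W Z l := by
  obtain ⟨-, h1, h2, h3, -⟩ := mem_L h
  simpa [sum_nb, deg_eq, a, h1, h2, h3] using W2 Z l

include W0 W3

lemma W_exit (n : ℕ) (Z : Finset V) : W Z (s (n + 1)) ≤ (c n + 1) * W Z (s n) ∧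
    (n ≠ 0 → W Z (par (s n)) ≤ (c n + 1) * W Z (s n)) := by
  have h := W2 Z (s n)
  have h1 : M n * W Z (s n) ≤ ∑ i ∈ range (M n), W (insert (s n) Z) (kid (s n) (c n + i)) := by
    simpa using card_nsmul_le_sum (range (M n)) _ _ fun i hi => ((W3 _ _ _ ((subset_insert _ _).trans
      (subset_insert _ _))).trans (W_leaf W2 (mem_image_of_mem _ hi) (insert (s n) Z)))
  have h2 := single_le_sum (f := fun i => W (insert (s n) Z) (kid (s n) i)) (fun _ _ => W0 _ _)
    (mem_range.2 (c_pos n))
  have h3 := W3 _ _ (s (n + 1)) (subset_insert (s n) Z)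
  have h4 := W3 _ _ (par (s n)) (subset_insert (s n) Z)
  have h5 := W0 Z (s n)
  have h6 := W0 Z (par (s n))
  have h7 := W0 Z (s (n + 1))
  rw [sum_nb, deg_eq, a_s, sum_range_add, kid_s] at *
  push_cast at h
  split_ifs at h with e
  · exact ⟨by linarith, fun k => absurd (by simpa [s] using e) k⟩
  · exact ⟨by linarith, fun _ => by linarith⟩

lemma W_many (n : ℕ) (W1 : ∀ Z a, K n ≤ (insert a Z ∩ L n).card → W Z a = 1) :
    1 / 2 ≤ W ∅ (s n) := by
  have p : (0 : ℝ) < c n + M n + 1 := by positivity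
  have k0 : (1 : ℝ) ≤ K n := by
    have : 0 < K n := by unfold K R; positivity
    exact_mod_cast this
  have c0 : (0 : ℝ) ≤ c n := by positivity
  have eM : (M n : ℝ) = 2 * K n * (K n + c n + 1) := by simp [M]
  have t0 : (0 : ℝ) ≤ (M n - K n) / (c n + M n + 1) := div_nonneg (by nlinarith) p.le
  have t1 : ((M n : ℝ) - K n) / (c n + M n + 1) ≤ 1 := div_le_one_of_le₀ (by linarith) p.le
  have key : ∀ j Z, K n ≤ (Z ∩ L n).card + j → (((M n : ℝ) - K n) / (c n + M n + 1)) ^ j ≤ W Z (s n) := by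
    intro j
    have top : ∀ Z, K n ≤ (Z ∩ L n).card → W Z (s n) = 1 := fun Z h => W1 _ _
      (h.trans (card_le_card (inter_subset_inter_right (subset_insert _ _))))
    induction j with
    | zero => exact fun Z h => by simp [top Z h]
    | succ j ih =>
      intro Z h
      rcases le_total (K n) (Z ∩ L n).card with e | e
      · rw [top Z e]; exact pow_le_one₀ t0 t1
      have h1 := card_nsmul_le_sum (L n \ Z) (fun y => W (insert (s n) Z) y) _ fun l hl =>
        ((ih (insert l Z) (by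
          rw [insert_inter_of_mem (mem_sdiff.1 hl).1, card_insert_of_notMem
            fun k => (mem_sdiff.1 hl).2 (mem_inter.1 k).1]; omega)).trans
          (W_leaf W2 (mem_sdiff.1 hl).1 Z)).trans (W3 _ _ _ (subset_insert _ _))
      have h2 := (sum_le_sum_of_subset_of_nonneg (s := L n \ Z) (fun l hl => (T.mem_neighborFinset _ _).2
        (mem_L (mem_sdiff.1 hl).1).1) fun _ _ _ => W0 _ _).trans (W2 Z (s n))
      have h3 : (M n : ℝ) - K n ≤ (L n \ Z).card := by
        have := card_sdiff_add_card_inter (L n) Z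
        rw [card_L, inter_comm] at this
        have : M n ≤ (L n \ Z).card + K n := by omega
        have : (M n : ℝ) ≤ (L n \ Z).card + K n := by exact_mod_cast this
        linarith
      have h4 : (T.degree (s n) : ℝ) ≤ c n + M n + 1 := by
        rw [deg_eq, a_s]; push_cast; split_ifs <;> linarith
      rw [pow_succ, ← mul_div_assoc, div_le_iff₀ p]
      rw [nsmul_eq_mul] at h1
      nlinarith [mul_le_mul_of_nonneg_right h3 (pow_nonneg t0 j),
        mul_le_mul_of_nonneg_right h4 (W0 Z (s n))]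
  refine le_trans ?_ (key (K n) ∅ (by simp))
  have := one_add_mul_le_pow (a := ((M n : ℝ) - K n) / (c n + M n + 1) - 1) (by linarith) (K n)
  rw [add_sub_cancel] at this
  refine le_trans ?_ this
  rw [div_sub_one p.ne', ← mul_div_assoc, ← sub_le_iff_le_add', le_div_iff₀ p]
  nlinarith

end

lemma g1 {n : ℕ} {l : V} (h : l ∈ L n) :
    ENNReal.ofReal (1 / R n) ≤ P T {ω | ∃ t, s 0 ∈ vis l t ω} := by
  obtain ⟨W, W0, W1, W2, W3, W4⟩ := goal T hT (Q := fun Z => s 0 ∈ Z) fun _ _ h k => h k
  refine le_trans (ENNReal.ofReal_le_ofReal ?_) (W4 l)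
  refine le_trans ?_ ((W3 _ _ _ (subset_insert _ _)).trans (W_leaf W2 h ∅))
  have : ∀ n, 1 ≤ (∏ k ∈ range (n + 1), (c k + 1) : ℕ) * W ∅ (s n) := fun n => by
    induction n with
    | zero => simp [W1 ∅ (s 0)]
    | succ n ih =>
      have := (W_exit W0 W2 W3 (n + 1) ∅).2 (by simp)
      rw [prod_range_succ, Nat.cast_mul, mul_assoc]
      exact ih.trans (mul_le_mul_of_nonneg_left (by exact_mod_cast this) (by positivity))
  rw [div_le_iff₀' (by unfold R; positivity), R, Nat.cast_mul, mul_assoc]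
  have := this n
  push_cast at *
  linarith

lemma g2 (n : ℕ) : 0 < P T {ω | ∃ t, K n ≤ (vis (s 0) t ω ∩ L n).card} ∧ ∀ m, n = m + 1 →
    ∀ l ∈ L m, ENNReal.ofReal (1 / R m) ≤ P T {ω | ∃ t, K n ≤ (vis l t ω ∩ L n).card} := by
  obtain ⟨W, W0, W1, W2, W3, W4⟩ := goal T hT (Q := fun Z => K n ≤ (Z ∩ L n).card)
    fun _ _ h k => k.trans (card_le_card (inter_subset_inter_right h))
  have h := W_many W0 W2 W3 n W1
  refine ⟨lt_of_lt_of_le (ENNReal.ofReal_pos.2 (not_le.1 fun e => ?_)) (W4 _), ?_⟩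
  · have : ∀ k, W ∅ (s k) ≤ 0 := fun k => by
      induction k with
      | zero => exact e
      | succ k ih =>
        exact (W_exit W0 W2 W3 k ∅).1.trans (mul_nonpos_of_nonneg_of_nonpos (by positivity) ih)
    linarith [this n]
  rintro m rfl l hl
  refine le_trans (ENNReal.ofReal_le_ofReal ?_) (W4 l)
  refine le_trans ?_ ((W3 _ _ _ (subset_insert _ _)).trans (W_leaf W2 hl ∅))
  have h1 := (W_exit W0 W2 W3 m ∅).1
  have h2 : 2 * (c m + 1) ≤ R m := Nat.mul_le_mul_left _
    (single_le_prod' (f := fun k => c k + 1) (fun _ _ => by omega) (self_mem_range_succ m))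
  have h2 : 2 * ((c m : ℝ) + 1) ≤ R m := by exact_mod_cast h2
  rw [div_le_iff₀' (by unfold R; positivity)]
  nlinarith [W0 ∅ (s m)]

end Pool.Agent.H.MP_32e6ae_pr
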