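import Mathlib
import Pool.Agent.H.MP_32e6ae_pr.B

/-! The chain reaction of frogs along the stars. -/

namespace Pool.Agent.H.MP_32e6ae_pr

open MeasureTheory ProbabilityTheory Filter Topology Finset Pool.Agent.Lib.helper3 SRW
open scoped ENNReal NNReal

def num {V : Type} [DecidableEq V] (o : V) (ω : V → ℕ × (ℕ → ℕ → V → V)) (v : V) : ℕ :=
  if v = o then 1 else (ω v).1

def Vis {V : Type} [DecidableEq V] (o : V) (ω : V → ℕ × (ℕ → ℕ → V → V)) : Set V :=
  ⋂₀ {S | o ∈ S ∧ ∀ v ∈ S, ∀ j < num o ω v, ∀ t, walk v ((ω v).2 j) t ∈ S}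

local instance msV : MeasurableSpace V := SRW.ms

abbrev X := ℕ × (ℕ → ℕ → V → V)

lemma Vis_step {ω : V → X} {v l : V} {t : ℕ} (h : v ∈ Vis (s 0) ω) (h1 : 0 < num (s 0) ω v)
    (h2 : l ∈ vis v t ((ω v).2 0)) : l ∈ Vis (s 0) ω := fun S hS => by
  obtain ⟨i, -, rfl⟩ := mem_image.1 h2
  exact hS.2 v (h S hS) 0 h1 i

instance : ∀ v, IsProbabilityMeasure (uniformOn (T.neighborSet v)) := pr T hT

noncomputable abbrev ν (r : ℝ≥0) : Measure X :=
  (poissonMeasure r).prod (Measure.infinitePi fun _ : ℕ => P T)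

def EE (B : Set ℕ) (x : V) (Q : Finset V → Prop) : Set X := B ×ˢ {η | ∃ t, Q (vis x t (η 0))}

lemma mQ (x : V) (Q : Finset V → Prop) : MeasurableSet {ω | ∃ t, Q (vis x t ω)} := by
  rw [Set.ofPred_exists]
  exact .iUnion fun t => measurableSet_setOfPred.2 (m_vis x t fun Z _ => Q Z)

lemma mE (B x Q) : MeasurableSet (EE B x Q) :=
  MeasurableSet.of_discrete.prod ((measurable_pi_apply (X := fun _ => ℕ → V → V) 0) (mQ x Q))

lemma νE (r B x Q) : ν r (EE B x Q) = poissonMeasure r B * P T {ω | ∃ t, Q (vis x t ω)} := by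
  rw [EE, Measure.prod_prod, ← (measurePreserving_eval_infinitePi (fun _ : ℕ => P T)
    0).measure_preimage (mQ x Q).nullMeasurableSet]
  rfl

def act (n : ℕ) : ℕ → V → Set (V → X)
  | 0, l => {ω | ω (s 0) ∈ EE Set.univ (s 0) (l ∈ ·)}
  | k + 1, l => ⋃ x ∈ L (n + k), act n k x ∩ {ω | ω x ∈ EE {1} x (l ∈ ·)}

def S (m : ℕ) : Set V := {v | v.1.length ≤ m}

lemma m_act (n : ℕ) : ∀ k m, n + k ≤ m → ∀ l, MeasurableSet[cylinderEvents (S m)] (act n k l)
  | 0, m, _, l => measurable_cylinderEvent_apply (X := fun _ => X) (i := s 0)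
    (by simp [S, s_len]) (mE ..)
  | k + 1, m, h, l => (L (n + k)).measurableSet_biUnion fun x hx => (m_act n k m (by omega) x).inter
    (measurable_cylinderEvent_apply (X := fun _ => X) (i := x)
      ((mem_L hx).2.2.2.2.trans_le h) (mE ..))

lemma num_pos {ω : V → X} {x : V} (h : (ω x).1 = 1) : 0 < num (s 0) ω x := by
  unfold num; split_ifs <;> omega

lemma act_Vis (n : ℕ) {ω : V → X} : ∀ k l, ω ∈ act n k l → l ∈ Vis (s 0) ω
  | 0, _, ⟨_, _, h⟩ => Vis_step (fun _ hS => hS.1) (by simp [num]) h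
  | k + 1, l, h => by
    obtain ⟨x, -, h1, h2, t, h3⟩ := Set.mem_iUnion₂.1 h
    exact Vis_step (act_Vis n k x h1) (num_pos h2) h3

open Classical in
def AA (n k : ℕ) : Set (V → X) := {ω | K (n + k) ≤ ((L (n + k)).filter fun l => ω ∈ act n k l).card}

lemma mA (n k m : ℕ) (h : n + k ≤ m) : MeasurableSet[cylinderEvents (S m)] (AA n k) := by
  classical
  unfold AA
  simp only [card_filter]
  exact measurableSet_le measurable_const (Finset.measurable_sum _ fun l _ =>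
    Measurable.ite (m_act n k m h l) measurable_const measurable_const)

lemma qb {β : ℝ} (b0 : 0 < β) (b1 : β ≤ 1) {n : ℕ} (h : 8 ≤ β * 4 ^ n) (k : ℕ) :
    ENNReal.ofReal (1 - β * (1 / R (n + k))) ^ K (n + k) ≤ 2⁻¹ ^ (k + 3) := by
  have r : (1 : ℝ) ≤ R (n + k) := by
    have : 0 < R (n + k) := by unfold R; positivity
    exact_mod_cast this
  have r1 : β * (1 / R (n + k)) ≤ 1 := mul_le_one₀ b1 (by positivity) (div_le_one_of_le₀ r (by positivity))
  rw [← ENNReal.ofReal_pow (by linarith), ← ENNReal.ofReal_ofNat 2, ← ENNReal.ofReal_inv_of_pos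
    (by norm_num), ← ENNReal.ofReal_pow (by norm_num)]
  refine ENNReal.ofReal_le_ofReal ((pow_le_pow_left₀ (by linarith) (Real.one_sub_le_exp_neg _)
    _).trans ?_)
  have e : (K (n + k) : ℝ) * -(β * (1 / R (n + k))) = -(β * 4 ^ n * 4 ^ k) := by
    simp only [K]; push_cast; field_simp; ring
  rw [← Real.exp_nat_mul, e, Real.exp_neg, inv_pow]
  refine inv_anti₀ (by positivity) (le_trans ?_ (Real.add_one_le_exp _))
  have : (2 : ℝ) ^ k ≤ 4 ^ k := pow_le_pow_left₀ (by norm_num) (by norm_num) k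
  have : (0 : ℝ) < 2 ^ k := by positivity
  rw [pow_add]
  nlinarith

theorem frog (r : ℝ≥0) (hr : 0 < r) : ¬ ∀ᵐ ω ∂(Measure.infinitePi fun _ : V => ν r),
    {p : V × ℕ | p.1 ∈ Vis (s 0) ω ∧ p.2 < num (s 0) ω p.1 ∧
      ∃ t, walk p.1 ((ω p.1).2 p.2) t = s 0}.Finite := by
  classical
  intro H
  have b0 := poissonMeasure_real_singleton_pos 1 hr
  have b1 : (poissonMeasure r).real {1} ≤ 1 := measureReal_le_one
  obtain ⟨n, hn⟩ := pow_unbounded_of_one_lt (8 / (poissonMeasure r).real {1}) (show (1 : ℝ) < 4 by norm_num)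
  rw [div_lt_iff₀' b0] at hn
  set μ := Measure.infinitePi fun _ : V => ν r
  have key : ∀ k (Q : Finset V → Prop), (∀ l ∈ L (n + k), ENNReal.ofReal (1 / R (n + k)) ≤
      P T {ω | ∃ t, Q (vis l t ω)}) → μ (AA n 0 ∩ {ω | ω ∈ AA n k ∧
      ∀ l ∈ L (n + k), ω ∈ act n k l → ω l ∉ EE {1} l Q}) ≤ μ (AA n 0) * 2⁻¹ ^ (k + 3) := by
    intro k Q hQ
    refine (part (ν r) (S := S (n + k)) (L := L (n + k)) (Set.disjoint_left.2 fun x a b => by
      have := (mem_L b).2.2.2.2; simp only [S, Set.mem_ofPred_eq] at a; omega)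
      (m_act n k _ le_rfl) (mA n 0 _ (by omega)) (fun l => mE {1} l Q)
      (ENNReal.ofReal_le_one.2 (sub_le_self _ (by positivity))) (fun l hl => ?_) _).trans
      (mul_le_mul_right (qb b0 b1 hn.le k) _)
    rw [prob_compl_eq_one_sub (mE ..), νE, ENNReal.ofReal_sub _ (by positivity), ENNReal.ofReal_one,
      ENNReal.ofReal_mul b0.le, ofReal_measureReal]
    exact tsub_le_tsub_left (mul_le_mul_right (hQ l hl) _) _
  have sub : ∀ᵐ ω ∂μ, ω ∈ AA n 0 → ω ∈ ⋃ k, (AA n 0 ∩ {ω | ω ∈ AA n k ∧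
      ∀ l ∈ L (n + k), ω ∈ act n k l → ω l ∉ EE {1} l (s 0 ∈ ·)}) ∪ (AA n 0 ∩ {ω | ω ∈ AA n k ∧
      ∀ l ∈ L (n + k), ω ∈ act n k l → ω l ∉ EE {1} l
        fun Z => K (n + k + 1) ≤ (Z ∩ L (n + k + 1)).card}) := H.mono fun ω h h0 => by
    by_contra hc
    simp only [Set.mem_iUnion, Set.mem_union, Set.mem_inter_iff, h0, true_and, Set.mem_ofPred_eq,
      not_exists, not_or, not_and, not_forall, not_not] at hc
    have hA : ∀ k, ω ∈ AA n k := fun k => by
      induction k with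
      | zero => exact h0
      | succ k ih =>
        obtain ⟨x, h1, h2, h3, t, h4⟩ := (hc k).2 ih
        refine le_trans h4 (card_le_card fun l hl => mem_filter.2 ⟨(mem_inter.1 hl).2, ?_⟩)
        exact Set.mem_iUnion₂.2 ⟨x, h1, h2, h3, t, (mem_inter.1 hl).1⟩
    refine Set.infinite_of_forall_exists_gt (fun k => ?_) (h.image fun p => p.1.1.length)
    obtain ⟨x, h1, h2, h3, t, h4⟩ := (hc k).1 (hA k)
    obtain ⟨i, -, h5⟩ := mem_image.1 h4
    exact ⟨_, ⟨(x, 0), ⟨act_Vis n k x h2, num_pos h3, i, h5⟩, rfl⟩, by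
      have := (mem_L h1).2.2.2.2; simp only; omega⟩
  have le : μ (AA n 0) ≤ μ (AA n 0) * 2⁻¹ := by
    refine (measure_mono_ae sub).trans ((measure_iUnion_le _).trans ((ENNReal.tsum_le_tsum fun k =>
      (measure_union_le _ _).trans (add_le_add (key k _ fun l hl => g1 hl)
        (key k _ ((g2 _).2 _ rfl)))).trans_eq ?_))
    simp only [← mul_add, ENNReal.tsum_mul_left, pow_succ, mul_assoc, ENNReal.inv_two_add_inv_two,
      mul_one]
    rw [ENNReal.tsum_mul_right, ENNReal.tsum_geometric, ENNReal.one_sub_inv_two, inv_inv,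
      ← mul_assoc 2, ENNReal.mul_inv_cancel (by simp) (by simp), one_mul]
  have pos : 0 < μ (AA n 0) := by
    refine lt_of_lt_of_le ?_ (measure_mono (s := (fun ω => ω (s 0)) ⁻¹' EE Set.univ (s 0)
      fun Z => K n ≤ (Z ∩ L n).card) fun ω ⟨_, t, h⟩ => le_trans h (card_le_card fun l hl =>
        mem_filter.2 ⟨(mem_inter.1 hl).2, trivial, t, (mem_inter.1 hl).1⟩))
    rw [(measurePreserving_eval_infinitePi (fun _ : V => ν r) (s 0)).measure_preimage
      (mE ..).nullMeasurableSet, νE, measure_univ, one_mul]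
    exact (g2 n).1
  exact absurd le (not_le.2 (ENNReal.half_lt_self pos.ne' (measure_ne_top _ _)))

theorem main : ∃ (V : Type) (_ : DecidableEq V) (T : SimpleGraph V) (_ : T.LocallyFinite) (o : V),
    letI : MeasurableSpace V := ⊤
    Infinite V ∧ T.IsTree ∧
    (∃ c : ℝ, 0 < c ∧ ∀ᵐ η ∂(Measure.infinitePi fun _ : ℕ =>
        Measure.infinitePi fun v => uniformOn (T.neighborSet v)),
      ∀ᶠ n : ℕ in atTop, c * n ≤ T.dist o (walk o η n)) ∧
    ∀ r : ℝ≥0, 0 < r → ¬ ∀ᵐ ω ∂(Measure.infinitePi fun _ : V => (poissonMeasure r).prod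
        (Measure.infinitePi fun _ : ℕ => Measure.infinitePi fun _ : ℕ =>
          Measure.infinitePi fun v => uniformOn (T.neighborSet v))),
      {p : V × ℕ | p.1 ∈ Vis o ω ∧ p.2 < num o ω p.1 ∧ ∃ t, walk p.1 ((ω p.1).2 p.2) t = o}.Finite :=
  ⟨V, inferInstance, T, inferInstance, s 0, .of_injective s fun i j e => by
    simpa [s_len] using congrArg (·.1.length) e, tree, ⟨_, by norm_num, speed⟩, frog⟩

end Pool.Agent.H.MP_32e6ae_pr
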